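import Pool.Agent.Results.MP_eb30e1_co.FewestMembers

/-!
# The fixed point property along maximal chains of order relations (MP_eb30e1, Q2)

For `n ≥ 2`, the largest number of adjacencies in a maximal chain of order relations on `[n]` at
which the fixed point property is gained is `⌊(n - 2)² / 4⌋ + 1` (and it is `0` for `n ≤ 1`).

Upper bound: an order with at most `n - 2` strict pairs is disconnected and lacks the property, one
with fewer than `n / 2` incomparable pairs has it, and two adjacencies of the wanted kind are not
consecutive.

Construction: let `S n` be the order on `[n]` in which the point `0` is below `2, …, n - 1` and the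
point `1` is isolated. From `S (m + 2)` one reaches, by `2 m - 2` steps with the property alternately
present and absent, the order in which two incomparable points are below all the points of `S m`.
-/

namespace Pool.Agent.Results.MP_eb30e1_co.MostAdjacencies

open Finset Pool.Agent.Results.MP_eb30e1_co.FewestMembers

open Classical in
/-- The number of adjacencies `r i ≺ r (i + 1)` such that `r i` lacks the fixed point property and
`r (i + 1)` has it. -/
noncomputable def countUp {α : Type} (T : ℕ) (r : ℕ → α → α → Prop) : ℕ :=
  ((range T).filter (fun i => ¬ FPP (r i) ∧ FPP (r (i + 1)))).card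

/-! ### The upper bound -/

section upper

variable {α : Type} [Fintype α] {T : ℕ} {r : ℕ → α → α → Prop}

lemma edges_le (hr : IsMaximalChain T r) (i : ℕ) (hi : i ≤ T) :
    (SimpleGraph.fromRel (r i)).edgeSet.ncard ≤ i := by
  induction i with
  | zero =>
    have : (SimpleGraph.fromRel (r 0)).edgeSet = ∅ := by
      rw [Set.eq_empty_iff_forall_notMem]
      intro e
      induction e with
      | _ x y =>
        rw [SimpleGraph.mem_edgeSet, SimpleGraph.fromRel_adj, hr.start, hr.start]
        rintro ⟨h, h1 | h1⟩
        · exact h h1
        · exact h h1.symm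
    rw [this]
    simp
  | succ i ih =>
    obtain ⟨a, b, -, hs⟩ := hr.step i (by omega)
    have hsub : (SimpleGraph.fromRel (r (i + 1))).edgeSet ⊆
        insert s(a, b) (SimpleGraph.fromRel (r i)).edgeSet := by
      intro e
      induction e with
      | _ x y =>
        rw [SimpleGraph.mem_edgeSet, SimpleGraph.fromRel_adj, Set.mem_insert_iff,
          SimpleGraph.mem_edgeSet, SimpleGraph.fromRel_adj, hs, hs]
        rintro ⟨h, (h1 | ⟨rfl, rfl⟩) | (h1 | ⟨rfl, rfl⟩)⟩
        · exact Or.inr ⟨h, Or.inl h1⟩
        · exact Or.inl rfl
        · exact Or.inr ⟨h, Or.inr h1⟩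
        · exact Or.inl Sym2.eq_swap
    calc (SimpleGraph.fromRel (r (i + 1))).edgeSet.ncard
        ≤ (insert s(a, b) (SimpleGraph.fromRel (r i)).edgeSet).ncard :=
          Set.ncard_le_ncard hsub (Set.toFinite _)
      _ ≤ (SimpleGraph.fromRel (r i)).edgeSet.ncard + 1 := Set.ncard_insert_le _ _
      _ ≤ i + 1 := Nat.add_le_add_right (ih (by omega)) 1

/-- The first members are disconnected and lack the fixed point property. -/
lemma not_fpp_first (hr : IsMaximalChain T r) {i : ℕ} (hi : i ≤ T)
    (h : i + 2 ≤ Fintype.card α) : ¬ FPP (r i) := by
  classical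
  have hne : Nonempty α := Fintype.card_pos_iff.1 (by omega)
  have hnp : ¬ (SimpleGraph.fromRel (r i)).Preconnected := by
    intro hp
    have hc : (SimpleGraph.fromRel (r i)).Connected := ⟨hp⟩
    have h1 := hc.card_vert_le_card_edgeSet_add_one
    have h2 := edges_le hr i hi
    rw [Nat.card_eq_fintype_card] at h1
    change Fintype.card α ≤ (SimpleGraph.fromRel (r i)).edgeSet.ncard + 1 at h1
    omega
  obtain ⟨x0, y0, hxy⟩ : ∃ x y, ¬ (SimpleGraph.fromRel (r i)).Reachable x y := by
    by_contra hcon
    push Not at hcon
    exact hnp hcon
  intro hF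
  obtain ⟨x, hx⟩ := hF
    (fun x => if (SimpleGraph.fromRel (r i)).Reachable x0 x then y0 else x0) (by
      intro x y hxy'
      have hr' : (SimpleGraph.fromRel (r i)).Reachable x y := by
        by_cases he : x = y
        · rw [he]
        · exact SimpleGraph.Adj.reachable (by
            rw [SimpleGraph.fromRel_adj]
            exact ⟨he, Or.inl hxy'⟩)
      by_cases hx : (SimpleGraph.fromRel (r i)).Reachable x0 x
      · rw [if_pos hx, if_pos (hx.trans hr')]
        exact (hr.order i hi).1 _
      · rw [if_neg hx, if_neg (fun h => hx (h.trans hr'.symm))]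
        exact (hr.order i hi).1 _)
  have hx' : (if (SimpleGraph.fromRel (r i)).Reachable x0 x then y0 else x0) = x := hx
  split_ifs at hx' with h1
  · exact hxy (hx' ▸ h1)
  · exact h1 (hx' ▸ SimpleGraph.Reachable.refl _)

lemma card_sparse (A : Finset ℕ) (lo hi : ℕ) (hA : ∀ i ∈ A, lo ≤ i ∧ i ≤ hi)
    (hc : ∀ i ∈ A, i + 1 ∉ A) : A.card ≤ (hi - lo) / 2 + 1 := by
  have h : A.card ≤ (range ((hi - lo) / 2 + 1)).card := by
    refine card_le_card_of_injOn (fun i => (i - lo) / 2) ?_ ?_
    · intro i hi'
      obtain ⟨h1, h2⟩ := hA i hi'
      simp only [coe_range, Set.mem_Iio]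
      omega
    · intro i hi' j hj' hij
      obtain ⟨h1, h2⟩ := hA i hi'
      obtain ⟨h3, h4⟩ := hA j hj'
      simp only at hij
      by_contra hne
      rcases Nat.lt_or_gt_of_ne hne with hlt | hlt
      · have : j = i + 1 := by omega
        exact hc i hi' (this ▸ hj')
      · have : i = j + 1 := by omega
        exact hc j hj' (this ▸ hi')
  rwa [card_range] at h

lemma countUp_le (hr : IsMaximalChain T r) (hT : T = (Fintype.card α).choose 2)
    (hn : 2 ≤ Fintype.card α) : countUp T r ≤ (Fintype.card α - 2) ^ 2 / 4 + 1 := by
  classical
  unfold countUp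
  refine (card_sparse _ (Fintype.card α - 2) (T - (Fintype.card α + 1) / 2) ?_ ?_).trans ?_
  · intro i hi
    rw [mem_filter, mem_range] at hi
    obtain ⟨h1, h2, h3⟩ := hi
    constructor
    · by_contra hlt
      exact not_fpp_first hr (i := i + 1) (by omega) (by omega) h3
    · by_contra hlt
      exact h2 (fpp_of_few hr (by omega) (by omega))
  · intro i hi hi'
    rw [mem_filter] at hi hi'
    exact hi'.2.1 hi.2.2
  · obtain ⟨m, hm | hm⟩ := Nat.even_or_odd' (Fintype.card α)
    · obtain ⟨k, rfl⟩ : ∃ k, m = k + 1 := ⟨m - 1, by omega⟩
      have hT' : T = (k + 1) * (2 * k + 1) := by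
        rw [hT, hm, Nat.choose_two_right]
        rw [show 2 * (k + 1) - 1 = 2 * k + 1 by omega, mul_assoc]
        exact Nat.mul_div_cancel_left _ (by norm_num)
      have e1 : (Fintype.card α - 2) ^ 2 / 4 = k ^ 2 := by
        rw [hm, show 2 * (k + 1) - 2 = 2 * k by omega, mul_pow]
        exact Nat.mul_div_cancel_left _ (by norm_num)
      rw [e1, hT', hm]
      have e2 : (k + 1) * (2 * k + 1) = 2 * k ^ 2 + 3 * k + 1 := by ring
      rw [e2]
      omega
    · obtain ⟨k, rfl⟩ : ∃ k, m = k + 1 := ⟨m - 1, by omega⟩
      have hT' : T = (2 * (k + 1) + 1) * (k + 1) := by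
        rw [hT, hm, Nat.choose_two_right]
        rw [show 2 * (k + 1) + 1 - 1 = 2 * (k + 1) by omega,
          show (2 * (k + 1) + 1) * (2 * (k + 1)) = 2 * ((2 * (k + 1) + 1) * (k + 1)) by ring]
        exact Nat.mul_div_cancel_left _ (by norm_num)
      have e1 : (Fintype.card α - 2) ^ 2 / 4 = k ^ 2 + k := by
        rw [hm, show 2 * (k + 1) + 1 - 2 = 2 * k + 1 by omega,
          show (2 * k + 1) ^ 2 = 4 * (k ^ 2 + k) + 1 by ring]
        omega
      rw [e1, hT', hm]
      have e2 : (2 * (k + 1) + 1) * (k + 1) = 2 * k ^ 2 + 5 * k + 3 := by ring
      rw [e2]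
      omega

end upper

/-! ### The construction -/

section construction

/-- The step in which the pair `(inl a, inr b)` is added. -/
def e (m : ℕ) (a : Bool) (b : Fin m) : ℕ :=
  if a then (if b.val = 0 then m else if b.val = 1 then 3 * m - 3 else m + 2 * b.val - 3)
  else b.val

/-- The index of the old chain. -/
def g (m T j : ℕ) : ℕ := if j < 3 * m - 2 then (j - m - 1) / 2 else min (j - 2 * m) T

/-- Two new points `inl false`, `inl true` are put below the points of the old set; the first steps
of the old chain `q` are interlaced with this. -/
def ex (m T : ℕ) (q : ℕ → Fin m → Fin m → Prop) (j : ℕ) :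
    Bool ⊕ Fin m → Bool ⊕ Fin m → Prop
  | .inl a, .inl b => a = b ∨ (2 * m + T < j ∧ a = false ∧ b = true)
  | .inl a, .inr b => e m a b < j
  | .inr b, .inr b' => q (g m T j) b b'
  | .inr _, .inl _ => False

/-- The first members of the chain: the point `0` is below `2, …, i + 1`. -/
def Star (m : ℕ) (q : ℕ → Fin m → Fin m → Prop) : Prop :=
  ∀ i, i ≤ m - 2 → ∀ x y : Fin m, q i x y ↔ x = y ∨ (x.val = 0 ∧ 2 ≤ y.val ∧ y.val < i + 2)

variable {m T : ℕ} {q : ℕ → Fin m → Fin m → Prop}

lemma e_lt (hm : 2 ≤ m) (a : Bool) (b : Fin m) : e m a b < 3 * m - 2 := by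
  have := b.2
  unfold e
  cases a
  · simp only [Bool.false_eq_true, if_false]
    omega
  · simp only [if_true]
    split_ifs <;> omega

lemma le_e (hm : 2 ≤ m) (b : Fin m) : m ≤ e m true b := by
  have := b.2
  unfold e
  simp only [if_true]
  split_ifs <;> omega

lemma ex_chain (hm : 2 ≤ m) (hq : IsMaximalChain T q) (hT : m - 2 ≤ T) (hs : Star m q) :
    IsMaximalChain (2 * m + T + 1) (ex m T q) where
  order := by
    intro j hj
    have hg : g m T j ≤ T := by
      unfold g
      split_ifs <;> omega
    have hqo := hq.order (g m T j) hg
    refine ⟨?_, ?_, ?_⟩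
    · rintro (a | b)
      · exact Or.inl rfl
      · exact hqo.1 b
    · rintro (a | b) (a' | b') h1 h2
      · rcases h1 with h1 | h1
        · rw [h1]
        · rcases h2 with h2 | h2
          · rw [h2]
          · rw [h1.2.1] at h2; simp at h2
      · exact h2.elim
      · exact h1.elim
      · rw [hqo.2.1 _ _ h1 h2]
    · rintro (a | b) (a' | b') (a'' | b'') h1 h2
      · rcases h1 with h1 | h1
        · subst h1; exact h2
        · rcases h2 with h2 | h2
          · subst h2; exact Or.inr h1
          · rw [h1.2.2] at h2; simp at h2
      · rcases h1 with h1 | h1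
        · subst h1; exact h2
        · have := e_lt hm a b''
          change e m a b'' < j
          omega
      · exact h2.elim
      · change e m a b' < j at h1
        change q (g m T j) b' b'' at h2
        change e m a b'' < j
        by_cases hj2 : j < 3 * m - 2
        · have hg' : g m T j = (j - m - 1) / 2 := by
            unfold g
            rw [if_pos hj2]
          rw [hg', hs _ (by omega)] at h2
          rcases h2 with h2 | ⟨h3, h4, h5⟩
          · rw [← h2]; exact h1
          · have hb := b''.2
            cases a
            · unfold e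
              simp only [Bool.false_eq_true, if_false]
              omega
            · unfold e
              simp only [if_true]
              split_ifs <;> omega
        · have := e_lt hm a b''
          omega
      · exact h1.elim
      · exact h1.elim
      · exact h2.elim
      · exact hqo.2.2 _ _ _ h1 h2
  start := by
    rintro (a | b) (a' | b')
    · change (a = a' ∨ _) ↔ _
      simp
    · change e m a b' < 0 ↔ _
      simp
    · change False ↔ _
      simp
    · change q (g m T 0) b b' ↔ _
      have : g m T 0 = 0 := by
        unfold g
        rw [if_pos (by omega)]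
        omega
      rw [this, hq.start]
      simp
  step := by
    intro j hj
    by_cases h1 : j < 3 * m - 2
    · -- the pairs added before the old chain is resumed
      have hll : ∀ a b : Bool, (a = b ∨ (2 * m + T < j + 1 ∧ a = false ∧ b = true)) ↔
          (a = b ∨ (2 * m + T < j ∧ a = false ∧ b = true)) := by
        intro a b
        have e1 : ¬ 2 * m + T < j + 1 := by omega
        have e2 : ¬ 2 * m + T < j := by omega
        simp [e1, e2]
      have hg0 : g m T j = (j - m - 1) / 2 := by
        unfold g
        rw [if_pos h1]
      have hg1 : g m T (j + 1) = (j + 1 - m - 1) / 2 := by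
        unfold g
        split_ifs <;> omega
      by_cases hA : j < m
      · refine ⟨.inl false, .inr ⟨j, hA⟩, ?_, ?_⟩
        · change ¬ e m false _ < j
          simp [e]
        · rintro (a' | b') (a'' | b'')
          · refine (hll a' a'').trans ?_
            change _ ↔ (a' = a'' ∨ (2 * m + T < j ∧ _)) ∨ _
            simp
          · change e m a' b'' < j + 1 ↔ e m a' b'' < j ∨ _
            cases a'
            · simp only [e, Bool.false_eq_true, if_false, Sum.inr.injEq, true_and, Fin.ext_iff]
              omega
            · have := le_e hm b''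
              simp only [Sum.inl.injEq, Bool.true_eq_false, false_and, or_false]
              omega
          · change False ↔ False ∨ _
            simp
          · change q (g m T (j + 1)) b' b'' ↔ q (g m T j) b' b'' ∨ _
            rw [hg0, hg1, show (j + 1 - m - 1) / 2 = (j - m - 1) / 2 by omega]
            simp
      · by_cases hB : (j - m) % 2 = 0 ∧ j ≠ m
        · -- the pair is in the old set
          obtain ⟨hB1, hB2⟩ := hB
          refine ⟨.inr ⟨0, by omega⟩, .inr ⟨(j - m) / 2 + 1, by omega⟩, ?_, ?_⟩
          · change ¬ q (g m T j) _ _
            rw [hg0, hs _ (by omega)]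
            rintro (h | h)
            · have := Fin.ext_iff.1 h
              simp only at this
              omega
            · simp only at h
              omega
          · rintro (a' | b') (a'' | b'')
            · refine (hll a' a'').trans ?_
              change _ ↔ (a' = a'' ∨ (2 * m + T < j ∧ _)) ∨ _
              simp
            · change e m a' b'' < j + 1 ↔ e m a' b'' < j ∨ _
              have hb := b''.2
              simp only [reduceCtorEq, false_and, or_false]
              cases a'
              · simp only [e, Bool.false_eq_true, if_false]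
                omega
              · simp only [e, if_true]
                split_ifs <;> omega
            · change False ↔ False ∨ _
              simp
            · change q (g m T (j + 1)) b' b'' ↔ q (g m T j) b' b'' ∨ _
              rw [hg0, hg1, hs _ (by omega), hs _ (by omega)]
              simp only [Sum.inr.injEq, Fin.ext_iff]
              constructor
              · rintro (h | ⟨h3, h4, h5⟩)
                · exact Or.inl (Or.inl h)
                · by_cases h6 : b''.val < (j - m - 1) / 2 + 2
                  · exact Or.inl (Or.inr ⟨h3, h4, h6⟩)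
                  · exact Or.inr ⟨h3, by omega⟩
              · rintro ((h | ⟨h3, h4, h5⟩) | ⟨h3, h4⟩)
                · exact Or.inl h
                · exact Or.inr ⟨h3, h4, by omega⟩
                · exact Or.inr ⟨h3, by omega, by omega⟩
        · -- the pair is `(inl true, inr b)`
          obtain ⟨v, hv, hvj⟩ : ∃ v, v < m ∧ ∀ w, w < m →
              ((if w = 0 then m else if w = 1 then 3 * m - 3 else m + 2 * w - 3) = j ↔ w = v) := by
            by_cases h0 : j = m
            · refine ⟨0, by omega, fun w hw => ?_⟩
              split_ifs <;> omega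
            · by_cases h2 : j = 3 * m - 3
              · refine ⟨1, by omega, fun w hw => ?_⟩
                split_ifs <;> omega
              · refine ⟨(j - m + 1) / 2 + 1, by omega, fun w hw => ?_⟩
                split_ifs <;> omega
          refine ⟨.inl true, .inr ⟨v, hv⟩, ?_, ?_⟩
          · change ¬ e m true _ < j
            have := (hvj v hv).2 rfl
            simp only [e, if_true]
            omega
          · rintro (a' | b') (a'' | b'')
            · refine (hll a' a'').trans ?_
              change _ ↔ (a' = a'' ∨ (2 * m + T < j ∧ _)) ∨ _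
              simp
            · change e m a' b'' < j + 1 ↔ e m a' b'' < j ∨ _
              have hb := b''.2
              cases a'
              · simp only [e, Bool.false_eq_true, if_false, Sum.inl.injEq, false_and, or_false]
                omega
              · have := hvj b''.val hb
                simp only [e, if_true, Sum.inr.injEq, true_and, Fin.ext_iff]
                rw [← this]
                omega
            · change False ↔ False ∨ _
              simp
            · change q (g m T (j + 1)) b' b'' ↔ q (g m T j) b' b'' ∨ _
              rw [hg0, hg1, show (j + 1 - m - 1) / 2 = (j - m - 1) / 2 by omega]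
              simp
    · have he : ∀ a b, e m a b < j := fun a b => by
        have := e_lt hm a b
        omega
      have hg0 : g m T j = min (j - 2 * m) T := by
        unfold g
        rw [if_neg h1]
      have hg1 : g m T (j + 1) = min (j + 1 - 2 * m) T := by
        unfold g
        rw [if_neg (by omega)]
      by_cases h2 : j < 2 * m + T
      · obtain ⟨a, b, hab, hst⟩ := hq.step (j - 2 * m) (by omega)
        refine ⟨.inr a, .inr b, ?_, ?_⟩
        · change ¬ q (g m T j) a b
          rw [hg0, min_eq_left (by omega)]
          exact hab
        · rintro (a' | b') (a'' | b'')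
          · change (a' = a'' ∨ (2 * m + T < j + 1 ∧ _)) ↔ (a' = a'' ∨ (2 * m + T < j ∧ _)) ∨ _
            have e1 : ¬ 2 * m + T < j + 1 := by omega
            have e2 : ¬ 2 * m + T < j := by omega
            simp [e1, e2]
          · change e m a' b'' < j + 1 ↔ e m a' b'' < j ∨ _
            have := he a' b''
            have e1 : e m a' b'' < j + 1 := by omega
            simp [e1, this]
          · change False ↔ False ∨ _
            simp
          · change q (g m T (j + 1)) b' b'' ↔ q (g m T j) b' b'' ∨ _
            rw [hg0, hg1, min_eq_left (by omega), min_eq_left (by omega),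
              show j + 1 - 2 * m = j - 2 * m + 1 by omega, hst]
            simp
      · have hj3 : j = 2 * m + T := by omega
        subst hj3
        refine ⟨.inl false, .inl true, ?_, ?_⟩
        · change ¬ (false = true ∨ _)
          simp
        · rintro (a' | b') (a'' | b'')
          · change (a' = a'' ∨ (2 * m + T < 2 * m + T + 1 ∧ _)) ↔
              (a' = a'' ∨ (2 * m + T < 2 * m + T ∧ _)) ∨ _
            simp
          · change e m a' b'' < 2 * m + T + 1 ↔ e m a' b'' < 2 * m + T ∨ _
            have := he a' b''
            have e1 : e m a' b'' < 2 * m + T + 1 := by omega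
            simp [e1, this]
          · change False ↔ False ∨ _
            simp
          · change q (g m T (2 * m + T + 1)) b' b'' ↔ q (g m T (2 * m + T)) b' b'' ∨ _
            rw [hg0, hg1, min_eq_right (by omega), min_eq_right (by omega)]
            simp
  final := by
    rintro (a | b) (a' | b')
    · rcases a <;> rcases a' <;> simp [ex]
    · left
      change e m a b' < _
      have := e_lt hm a b'
      omega
    · right
      change e m a' b < _
      have := e_lt hm a' b
      omega
    · change q (g m T (2 * m + T + 1)) b b' ∨ q (g m T (2 * m + T + 1)) b' b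
      have : g m T (2 * m + T + 1) = T := by
        unfold g
        rw [if_neg (by omega)]
        omega
      rw [this]
      exact hq.final b b'

/-- Once all pairs `(inl a, inr b)` are present, the fixed point property is that of the old set. -/
lemma fpp_old (hm : 2 ≤ m) {k : ℕ} (hk : m - 2 ≤ k) (hkT : k ≤ T) :
    FPP (ex m T q (2 * m + k)) ↔ FPP (q k) := by
  have hg : g m T (2 * m + k) = k := by
    unfold g
    rw [if_neg (by omega), show 2 * m + k - 2 * m = k by omega, min_eq_left hkT]
  have he : ∀ a b, e m a b < 2 * m + k := fun a b => by
    have := e_lt hm a b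
    omega
  constructor
  · intro hF f hf
    obtain ⟨x, hx⟩ := hF (fun x => match x with
      | .inl a => .inl (!a)
      | .inr b => .inr (f b)) (by
        rintro (a | b) (a' | b') h
        · rcases h with h | h
          · exact Or.inl (by rw [h])
          · omega
        · exact he _ _
        · exact h.elim
        · change q (g m T (2 * m + k)) (f b) (f b')
          change q (g m T (2 * m + k)) b b' at h
          rw [hg] at h ⊢
          exact hf _ _ h)
    rcases x with a | b
    · simp at hx
    · exact ⟨b, by simpa using hx⟩
  · intro hF f hf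
    by_cases h : ∃ b a, f (.inr b) = .inl a
    · obtain ⟨b, a, hb⟩ := h
      refine ⟨.inl a, ?_⟩
      have h1 : ex m T q (2 * m + k) (f (.inl a)) (f (.inr b)) := hf _ _ (he a b)
      rw [hb] at h1
      rcases h2 : f (.inl a) with a' | b'
      · rw [h2] at h1
        rcases h1 with h1 | h1
        · rw [h1]
        · omega
      · rw [h2] at h1
        exact h1.elim
    · push Not at h
      have h' : ∀ b, ∃ b', f (.inr b) = .inr b' := by
        intro b
        rcases h2 : f (.inr b) with a | b'
        · exact absurd h2 (h b a)
        · exact ⟨b', rfl⟩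
      choose f' hf' using h'
      obtain ⟨b, hb⟩ := hF f' (by
        intro b b' hbb
        have h1 : ex m T q (2 * m + k) (f (.inr b)) (f (.inr b')) := by
          apply hf
          change q (g m T (2 * m + k)) b b'
          rw [hg]
          exact hbb
        rw [hf', hf'] at h1
        change q (g m T (2 * m + k)) _ _ at h1
        rw [hg] at h1
        exact h1)
      exact ⟨.inr b, by rw [hf', hb]⟩

/-- The members before the old chain is resumed that lack the fixed point property. -/
lemma not_fpp_even (hm : 2 ≤ m) (hq : IsMaximalChain T q) (hT : m - 2 ≤ T) (hs : Star m q) {i : ℕ}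
    (hi : i < m - 1) : ¬ FPP (ex m T q (m + 2 * i)) := by
  rcases Nat.eq_zero_or_pos i with rfl | hi0
  · have hch := ex_chain hm hq hT hs
    have hc : Fintype.card (Bool ⊕ Fin m) = m + 2 := by
      rw [Fintype.card_sum, Fintype.card_bool, Fintype.card_fin]
      ring
    exact not_fpp_first hch (by omega) (by omega)
  · have hg : g m T (m + 2 * i) = i - 1 := by
      unfold g
      rw [if_pos (by omega)]
      omega
    intro hF
    obtain ⟨x, hx⟩ := hF (fun x => match x with
      | .inl a => .inl (!a)
      | .inr b => if b.val = i + 1 then .inr ⟨0, by omega⟩ else .inr ⟨i + 1, by omega⟩) (by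
        rintro (a | b) (a' | b') h
        · rcases h with h | h
          · exact Or.inl (by rw [h])
          · omega
        · simp only
          split_ifs
          · change e m _ _ < m + 2 * i
            unfold e
            simp only
            split_ifs <;> omega
          · change e m _ _ < m + 2 * i
            unfold e
            simp only
            split_ifs <;> omega
        · exact h.elim
        · change q (g m T (m + 2 * i)) b b' at h
          rw [hg, hs _ (by omega)] at h
          rcases h with h | ⟨h3, h4, h5⟩
          · subst h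
            exact ((ex_chain hm hq hT hs).order _ (by omega)).1 _
          · simp only
            rw [if_neg (by omega), if_neg (by omega)]
            exact ((ex_chain hm hq hT hs).order _ (by omega)).1 _)
    rcases x with a | b
    · simp at hx
    · simp only at hx
      split_ifs at hx with h0
      · have := Fin.ext_iff.1 (Sum.inr.inj hx)
        simp only at this
        omega
      · have := Fin.ext_iff.1 (Sum.inr.inj hx)
        simp only at this
        omega

/-- The members before the old chain is resumed that have the fixed point property. -/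
lemma fpp_odd (hm : 2 ≤ m) (hT : m - 2 ≤ T) (hs : Star m q) {i : ℕ}
    (hi : i < m - 1) : FPP (ex m T q (m + 2 * i + 1)) := by
  have hg : g m T (m + 2 * i + 1) = i := by
    unfold g
    rw [if_pos (by omega)]
    omega
  intro f hf
  by_contra hfree
  push Not at hfree
  -- the points above `inr b`
  have hup : ∀ b x, ex m T q (m + 2 * i + 1) (.inr b) x → x = .inr b ∨
      (b.val = 0 ∧ ∃ b' : Fin m, x = .inr b' ∧ 2 ≤ b'.val ∧ b'.val < i + 2) := by
    rintro b (a | b') h
    · exact h.elim
    · change q (g m T (m + 2 * i + 1)) b b' at h
      rw [hg, hs _ (by omega)] at h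
      rcases h with h | ⟨h3, h4, h5⟩
      · exact Or.inl (by rw [h])
      · exact Or.inr ⟨h3, b', rfl, h4, h5⟩
  -- no image of a point below `inr b` is `inr b`
  have hno : ∀ b x, f x = .inr b → ex m T q (m + 2 * i + 1) x (.inr b) → False := by
    intro b x h1 h2
    have h3 := hf _ _ h2
    rw [h1] at h3
    rcases hup b _ h3 with h4 | ⟨h4, b', h5, h6, h7⟩
    · exact hfree _ h4
    · have h8 : ex m T q (m + 2 * i + 1) (.inr b) (.inr b') := h5 ▸ h3
      have h9 := hf _ _ h8
      rw [h5] at h9
      rcases hup b' _ h9 with h10 | ⟨h10, -⟩
      · exact hfree _ h10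
      · omega
  have h0 : ∀ b : Fin m, ex m T q (m + 2 * i + 1) (.inl false) (.inr b) := by
    intro b
    have := b.2
    change e m false b < m + 2 * i + 1
    simp only [e, Bool.false_eq_true, if_false]
    omega
  have h1 : f (.inl false) = .inl true := by
    rcases h : f (.inl false) with a | b
    · cases a
      · exact absurd h (hfree _)
      · rfl
    · exact (hno b _ h (h0 b)).elim
  -- the image of the point `c`
  obtain ⟨c, hc⟩ : ∃ c : Fin m, c.val = 0 := ⟨⟨0, by omega⟩, rfl⟩
  have h2 : ex m T q (m + 2 * i + 1) (.inl true) (.inr c) := by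
    change e m true c < m + 2 * i + 1
    simp only [e, if_true, hc]
    omega
  have h3 : f (.inr c) = .inl true := by
    have h4 := hf _ _ (h0 c)
    rw [h1] at h4
    rcases h : f (.inr c) with a | b
    · rw [h] at h4
      rcases h4 with h4 | h4
      · rw [← h4]
      · simp at h4
    · rw [h] at h4
      change e m true b < m + 2 * i + 1 at h4
      have hb := b.2
      simp only [e, if_true] at h4
      by_cases hb0 : b.val = 0
      · have : b = c := Fin.ext (hb0.trans hc.symm)
        exact absurd (this ▸ h) (hfree _)
      · rw [if_neg hb0] at h4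
        split_ifs at h4 with hb1
        · omega
        · exfalso
          refine hno b _ h ?_
          change q (g m T (m + 2 * i + 1)) c b
          rw [hg, hs _ (by omega)]
          exact Or.inr ⟨hc, by omega, by omega⟩
  have h4 := hf _ _ h2
  rw [h3] at h4
  rcases h : f (.inl true) with a | b
  · rw [h] at h4
    rcases h4 with h4 | h4
    · exact hfree _ (h4 ▸ h)
    · omega
  · rw [h] at h4
    exact h4.elim

open Classical in
lemma countUp_ex (hm : 2 ≤ m) (hq : IsMaximalChain T q) (hT : m - 2 ≤ T) (hs : Star m q) :
    countUp T q + (m - 1) ≤ countUp (2 * m + T + 1) (ex m T q) := by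
  unfold countUp
  have hk : ∀ k ∈ (range T).filter (fun i => ¬ FPP (q i) ∧ FPP (q (i + 1))), m - 2 ≤ k := by
    intro k hk
    rw [mem_filter, mem_range] at hk
    by_contra hlt
    exact not_fpp_first hq (i := k + 1) (by omega) (by rw [Fintype.card_fin]; omega) hk.2.2
  have h1 : (((range T).filter (fun i => ¬ FPP (q i) ∧ FPP (q (i + 1)))).image
      (fun k => 2 * m + k)).card = ((range T).filter (fun i => ¬ FPP (q i) ∧ FPP (q (i + 1)))).card :=
    card_image_of_injective _ (fun a b h => by
      have h' : 2 * m + a = 2 * m + b := h
      omega)
  have h2 : ((range (m - 1)).image (fun i => m + 2 * i)).card = m - 1 := by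
    rw [card_image_of_injective _ (fun a b h => by
      have h' : m + 2 * a = m + 2 * b := h
      omega), card_range]
  have h3 : Disjoint (((range T).filter (fun i => ¬ FPP (q i) ∧ FPP (q (i + 1)))).image
      (fun k => 2 * m + k)) ((range (m - 1)).image (fun i => m + 2 * i)) := by
    rw [disjoint_left]
    intro j hj hj'
    rw [mem_image] at hj hj'
    obtain ⟨k, hk1, rfl⟩ := hj
    obtain ⟨i, hi, hik⟩ := hj'
    have hk2 := hk k hk1
    rw [mem_range] at hi
    omega
  have h4 := card_union_of_disjoint h3
  rw [h1, h2] at h4
  rw [← h4]
  · apply card_le_card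
    intro j hj
    rw [mem_union, mem_image, mem_image] at hj
    rw [mem_filter, mem_range]
    rcases hj with ⟨k, hk1, rfl⟩ | ⟨i, hi, rfl⟩
    · have hk2 := hk k hk1
      rw [mem_filter, mem_range] at hk1
      refine ⟨by omega, ?_, ?_⟩
      · rw [fpp_old hm hk2 (by omega)]
        exact hk1.2.1
      · rw [add_assoc, fpp_old hm (by omega) (by omega)]
        exact hk1.2.2
    · rw [mem_range] at hi
      exact ⟨by omega, not_fpp_even hm hq hT hs hi, fpp_odd hm hT hs hi⟩

/-- The labelling of the extended set. -/
def lab (m : ℕ) : Fin (m + 2) ≃ Bool ⊕ Fin m where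
  toFun x := if h0 : x.val = 0 then .inl false else if h1 : x.val = 1 then .inl true
    else .inr ⟨x.val - 2, by omega⟩
  invFun
    | .inl false => ⟨0, by omega⟩
    | .inl true => ⟨1, by omega⟩
    | .inr b => ⟨b.val + 2, by omega⟩
  left_inv := by
    intro x
    by_cases h0 : x.val = 0
    · simp only [h0, dif_pos]
      exact Fin.ext h0.symm
    · by_cases h1 : x.val = 1
      · simp only [h1, one_ne_zero, dif_neg, not_false_eq_true, dif_pos]
        exact Fin.ext h1.symm
      · simp only [h0, h1, dif_neg, not_false_eq_true]
        refine Fin.ext ?_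
        simp only
        omega
  right_inv := by
    rintro (a | b)
    · cases a <;> simp
    · simp

lemma fpp_equiv_iff {α β : Type} (f : β ≃ α) {r : α → α → Prop} :
    FPP (fun x y => r (f x) (f y)) ↔ FPP r := by
  refine ⟨fpp_equiv f, fun h => ?_⟩
  refine fpp_equiv f.symm (r := fun x y => r (f x) (f y)) ?_
  simpa using h

lemma countUp_equiv {α β : Type} (f : β ≃ α) {N : ℕ} {r : ℕ → α → α → Prop} :
    countUp N (fun i x y => r i (f x) (f y)) = countUp N r := by
  classical
  unfold countUp
  congr 1
  ext i
  rw [mem_filter, mem_filter, fpp_equiv_iff, fpp_equiv_iff]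

lemma star_new (hm : 2 ≤ m) (hq : IsMaximalChain T q) :
    Star (m + 2) (fun i x y => ex m T q i (lab m x) (lab m y)) := by
  intro i hi x y
  have hi' : i ≤ m := by omega
  have hg : g m T i = 0 := by
    unfold g
    rw [if_pos (by omega)]
    omega
  change ex m T q i (lab m x) (lab m y) ↔ _
  rcases hx : lab m x with a | b <;> rcases hy : lab m y with a' | b'
  · have hx' : x = (lab m).symm (.inl a) := by rw [← hx, Equiv.symm_apply_apply]
    have hy' : y = (lab m).symm (.inl a') := by rw [← hy, Equiv.symm_apply_apply]
    change (a = a' ∨ (2 * m + T < i ∧ _)) ↔ _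
    have e1 : ¬ 2 * m + T < i := by omega
    rw [hx', hy']
    cases a <;> cases a' <;> simp [e1, lab]
  · have hx' : x = (lab m).symm (.inl a) := by rw [← hx, Equiv.symm_apply_apply]
    have hy' : y = (lab m).symm (.inr b') := by rw [← hy, Equiv.symm_apply_apply]
    change e m a b' < i ↔ _
    rw [hx', hy']
    cases a
    · simp [lab, e]
    · have := le_e hm b'
      have e1 : ¬ e m true b' < i := by omega
      simp [lab, e1]
  · have hx' : x = (lab m).symm (.inr b) := by rw [← hx, Equiv.symm_apply_apply]
    have hy' : y = (lab m).symm (.inl a') := by rw [← hy, Equiv.symm_apply_apply]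
    change False ↔ _
    rw [hx', hy']
    cases a' <;> simp [lab]
  · have hx' : x = (lab m).symm (.inr b) := by rw [← hx, Equiv.symm_apply_apply]
    have hy' : y = (lab m).symm (.inr b') := by rw [← hy, Equiv.symm_apply_apply]
    have ex' : x.val = b.val + 2 := by rw [hx']; rfl
    have ey' : y.val = b'.val + 2 := by rw [hy']; rfl
    change q (g m T i) b b' ↔ _
    rw [hg, hq.start, Fin.ext_iff, Fin.ext_iff, ex', ey']
    omega

/-- From a maximal chain on `m` points to one on `m + 2` points. -/
lemma extend_up {m c : ℕ} (hm : 2 ≤ m) (h : ∃ q : ℕ → Fin m → Fin m → Prop,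
    IsMaximalChain (m.choose 2) q ∧ Star m q ∧ c ≤ countUp (m.choose 2) q) :
    ∃ q : ℕ → Fin (m + 2) → Fin (m + 2) → Prop, IsMaximalChain ((m + 2).choose 2) q ∧
      Star (m + 2) q ∧ c + (m - 1) ≤ countUp ((m + 2).choose 2) q := by
  obtain ⟨q, hq, hs, hc⟩ := h
  have hT : m - 2 ≤ m.choose 2 := by
    have h1 : m.choose 1 ≤ (m + 1).choose 2 := by
      rw [Nat.choose_succ_succ' m 1]
      omega
    obtain ⟨k, rfl⟩ : ∃ k, m = k + 2 := ⟨m - 2, by omega⟩
    rw [Nat.choose_succ_succ' (k + 1) 1, Nat.choose_one_right]
    omega
  refine ⟨fun i x y => ex m (m.choose 2) q i (lab m x) (lab m y), ?_, star_new hm hq, ?_⟩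
  · rw [choose_step]
    exact chain_equiv (lab m) (ex_chain hm hq hT hs)
  · rw [choose_step, countUp_equiv]
    exact (Nat.add_le_add_right hc _).trans (countUp_ex hm hq hT hs)

end construction

/-- The chain on three points. -/
def q3 (i : ℕ) (x y : Fin 3) : Prop :=
  x = y ∨ (1 ≤ i ∧ x = 0 ∧ y = 2) ∨ (2 ≤ i ∧ x = 1 ∧ y = 2) ∨ (3 ≤ i ∧ x = 0 ∧ y = 1)

lemma q3_chain : IsMaximalChain ((3 : ℕ).choose 2) q3 where
  order := by
    intro i hi
    have h3 : (3 : ℕ).choose 2 = 3 := rfl
    rw [h3] at hi
    unfold IsOrder q3
    interval_cases i <;> exact ⟨by decide, by decide, by decide⟩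
  start := by
    intro x y
    simp [q3]
  step := by
    intro i hi
    have h3 : (3 : ℕ).choose 2 = 3 := rfl
    rw [h3] at hi
    unfold q3
    interval_cases i
    · exact ⟨0, 2, by decide, by decide⟩
    · exact ⟨1, 2, by decide, by decide⟩
    · exact ⟨0, 1, by decide, by decide⟩
  final := by
    have h3 : (3 : ℕ).choose 2 = 3 := rfl
    rw [h3]
    unfold q3
    decide

/-- The statement used in the induction. -/
lemma main_up (n : ℕ) (hn : 2 ≤ n) : ∃ q : ℕ → Fin n → Fin n → Prop,
    IsMaximalChain (n.choose 2) q ∧ Star n q ∧ (n - 2) ^ 2 / 4 + 1 ≤ countUp (n.choose 2) q := by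
  classical
  induction n using Nat.strong_induction_on with
  | _ n ih =>
    rcases Nat.lt_or_ge n 4 with h4 | h4
    · interval_cases n
      · refine ⟨_, chain_two, ?_, ?_⟩
        · intro i hi x y
          have hi0 : i = 0 := by omega
          subst hi0
          have := y.2
          simp only [lt_irrefl, false_and, or_false]
          constructor
          · exact Or.inl
          · rintro (h | h)
            · exact h
            · omega
        · unfold countUp
          have h1 : (2 : ℕ).choose 2 = 1 := rfl
          have h5 := not_fpp_first chain_two (i := 0) (by omega) (by simp)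
          have h6 := fpp_of_few chain_two (i := 1) (by omega) (by simp)
          refine (Nat.le_of_eq ?_ : (2 - 2) ^ 2 / 4 + 1 ≤ ({0} : Finset ℕ).card).trans
            (card_le_card ?_)
          · simp
          · intro i hi
            rw [mem_singleton] at hi
            subst hi
            rw [mem_filter, mem_range]
            exact ⟨by omega, h5, h6⟩
      · refine ⟨_, q3_chain, ?_, ?_⟩
        · intro i hi x y
          have hi1 : i ≤ 1 := by omega
          unfold q3
          interval_cases i
          · revert x y
            decide
          · revert x y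
            decide
        · unfold countUp
          have h1 : (3 : ℕ).choose 2 = 3 := rfl
          have h5 := not_fpp_first q3_chain (i := 1) (by omega) (by simp)
          have h6 : FPP (q3 2) := by
            intro f hf
            by_contra hfree
            push Not at hfree
            have h02 := hf 0 2 (by unfold q3; decide)
            have h12 := hf 1 2 (by unfold q3; decide)
            have a0 := hfree 0
            have a1 := hfree 1
            have a2 := hfree 2
            unfold q3 at h02 h12
            generalize f 0 = u at *
            generalize f 1 = v at *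
            generalize f 2 = w at *
            revert u v w
            decide
          refine (Nat.le_of_eq ?_ : (3 - 2) ^ 2 / 4 + 1 ≤ ({1} : Finset ℕ).card).trans
            (card_le_card ?_)
          · simp
          · intro i hi
            rw [mem_singleton] at hi
            subst hi
            rw [mem_filter, mem_range]
            exact ⟨by omega, h5, h6⟩
    · obtain ⟨m, rfl⟩ : ∃ m, n = m + 2 := ⟨n - 2, by omega⟩
      obtain ⟨q, hq, hs, hc⟩ := extend_up (by omega) (ih m (by omega) (by omega))
      refine ⟨q, hq, hs, le_trans ?_ hc⟩
      obtain ⟨k, rfl⟩ : ∃ k, m = k + 2 := ⟨m - 2, by omega⟩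
      have e1 : (k + 2 + 2 - 2) ^ 2 = 4 * (k + 1) + (k + 2 - 2) ^ 2 := by
        simp only [Nat.add_sub_cancel]
        ring
      rw [e1]
      omega

/-- **Result.** For every `n ≥ 2` the largest number of adjacencies `r i ≺ r (i + 1)` in a maximal
chain of order relations on an `n`-element set for which `r i` lacks the fixed point property and
`r (i + 1)` has it is `⌊(n - 2)² / 4⌋ + 1`; for `n ≤ 1` it is `0`. -/
theorem result (n : ℕ) :
    IsGreatest {k : ℕ | ∃ r : ℕ → Fin n → Fin n → Prop,
      IsMaximalChain (n.choose 2) r ∧ k = countUp (n.choose 2) r}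
      (if n ≤ 1 then 0 else (n - 2) ^ 2 / 4 + 1) := by
  rcases Nat.lt_or_ge n 2 with h2 | h2
  · rw [if_pos (by omega)]
    have h0 : n.choose 2 = 0 := Nat.choose_eq_zero_of_lt h2
    rw [h0]
    have hc : ∀ r : ℕ → Fin n → Fin n → Prop, countUp 0 r = 0 := by
      intro r
      simp [countUp]
    have hsub : Subsingleton (Fin n) := by
      interval_cases n
      · infer_instance
      · infer_instance
    refine ⟨⟨fun _ x y => x = y, ⟨?_, ?_, ?_, ?_⟩, (hc _).symm⟩, ?_⟩
    · exact fun i _ => ⟨fun _ => rfl, fun _ _ h _ => h, fun _ _ _ h1 h2 => h1.trans h2⟩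
    · exact fun _ _ => Iff.rfl
    · intro i hi
      omega
    · exact fun x y => Or.inl (Subsingleton.elim _ _)
    · rintro k ⟨r, -, rfl⟩
      rw [hc]
  · rw [if_neg (by omega)]
    have hup : ∀ r : ℕ → Fin n → Fin n → Prop, IsMaximalChain (n.choose 2) r →
        countUp (n.choose 2) r ≤ (n - 2) ^ 2 / 4 + 1 := by
      intro r hr
      have := countUp_le hr (by rw [Fintype.card_fin]) (by rw [Fintype.card_fin]; exact h2)
      rwa [Fintype.card_fin] at this
    obtain ⟨q, hq, -, hc⟩ := main_up n h2
    refine ⟨⟨q, hq, le_antisymm hc (hup q hq)⟩, ?_⟩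
    rintro k ⟨r, hr, rfl⟩
    exact hup r hr

end Pool.Agent.Results.MP_eb30e1_co.MostAdjacencies
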